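import Pool.Agent.Q211.AM.Dya

/-!
# A model of ZF with a dyadically filterbase infinite, weakly Dedekind-finite set

The model is a symmetric extension of permutation type. The atoms are the rational numbers in
`[0, 1)` (every atom is represented by an infinite set of mutually generic Cohen reals). The group
consists of the permutations that preserve every dyadic interval `[(i - 1) / 2 ^ n, i / 2 ^ n)` up
to a finite set, and the normal filter is generated by the stabilizers of the single atoms and of
the single dyadic intervals. Every dyadic interval `T n i` is in the model, so its class `V n i`
of the sets that differ from `T n i` by a finite set is a filterbase, and the family of these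
classes is in the model, as it is invariant under the group. It shows that the set `A` of the
atoms is dyadically filterbase infinite. Let `f` be a sequence of subsets of `A`, with a support
that consists of finitely many atoms `E` and finitely many dyadic intervals. Two atoms outside `E`
that belong to the same intervals of the support can be exchanged by an element of the group, so
every set `f n` is a union of some of finitely many sets. So `f` is not injective, and the power
set of `A` is Dedekind-finite.
-/

set_option autoImplicit false

namespace Pool.Agent.Results.MP_211e54_lc.DyadicWeaklyFinite

open Pool.Agent.W868 Pool.Agent.W868.PName Pool.Agent.Q211.SY Pool.Agent.Q211.FS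
open Pool.Agent.Q211.TP Pool.Agent.Q211.AM

/-- There is a countable transitive model of ZF with a set that is dyadically filterbase infinite
and weakly Dedekind-finite. -/
theorem result : ∃ M : Set ZFSet.{0}, M.Countable ∧ IsZF M ∧
    ∃ A ∈ M, DyadInf M A ∧ WDFin M A := by
  obtain ⟨M, at', st, h⟩ := exists_alm (T := DT) cd2 cd2_Cd
  have hu : Set.univ ∈ DA DT := ⟨Nat.pair 0 1, by
    rw [DT_pair, DI_univ]
    exact AE.refl _⟩
  exact ⟨M, h.cnt, h.zf, st Set.univ, h.stM _ hu, dyadInf h, AlmM.wdFin h hu⟩

end Pool.Agent.Results.MP_211e54_lc.DyadicWeaklyFinite
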